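import Pool.Agent.PackIndex.Defs

/-!
# Packing indices of partition cells: groups with property (b)
-/

namespace Pool.Agent.PackIndex

universe u

section

variable {G : Type u} [Group G]

/-- coordinates along the orbits of left multiplication by `s` -/
lemma exists_coord (s : G) (hs : ¬ IsOfFinOrder s) :
    ∃ a : G → ℤ, ∀ (x : G) (j : ℤ), a (s ^ j * x) = a x + j := by
  classical
  have hinj : Function.Injective (fun n : ℤ => s ^ n) := injective_zpow_iff_not_isOfFinOrder.2 hs
  let r : G → G := fun x => (Quotient.mk (QuotientGroup.rightRel (Subgroup.zpowers s)) x).out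
  have hr : ∀ x, ∃ n : ℤ, s ^ n = x * (r x)⁻¹ := by
    intro x
    have h1 : (QuotientGroup.rightRel (Subgroup.zpowers s)) (r x) x :=
      Quotient.exact (Quotient.out_eq _)
    rw [QuotientGroup.rightRel_apply] at h1
    exact Subgroup.mem_zpowers_iff.1 h1
  choose a ha using hr
  refine ⟨a, fun x j => ?_⟩
  have hrr : r (s ^ j * x) = r x := by
    have : Quotient.mk (QuotientGroup.rightRel (Subgroup.zpowers s)) (s ^ j * x)
        = Quotient.mk (QuotientGroup.rightRel (Subgroup.zpowers s)) x := by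
      apply Quotient.sound
      show (QuotientGroup.rightRel (Subgroup.zpowers s)) (s ^ j * x) x
      rw [QuotientGroup.rightRel_apply]
      refine Subgroup.mem_zpowers_iff.2 ⟨-j, ?_⟩
      simp
    show (Quotient.mk _ (s ^ j * x)).out = (Quotient.mk _ x).out
    rw [this]
  apply hinj
  show s ^ (a (s ^ j * x)) = s ^ (a x + j)
  rw [ha, hrr, mul_assoc, ← ha, ← zpow_add, add_comm]

/-- the tile of `x` -/
def tl (s : G) (a : G → ℤ) (L : ℤ) (x : G) : G := s ^ (-(a x % L)) * x

lemma tl_eq {s : G} {a : G → ℤ} {L : ℤ} (x y : G) (h : tl s a L x = tl s a L y)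
    (hp : a x % L = a y % L) : x = y := by
  unfold tl at h
  rw [hp] at h
  exact mul_left_cancel h

lemma tl_count {s : G} {a : G → ℤ} (L : ℕ) (hL : 0 < L) (X : Finset G) [DecidableEq G] :
    X.card + ((X.image fun x => s * x) \ X).card ≤ (X.image (tl s a L)).card * (L + 1) := by
  classical
  have hL' : (0 : ℤ) < L := by exact_mod_cast hL
  have hcard : X.card + ((X.image fun x => s * x) \ X).card = (X ∪ X.image fun x => s * x).card := by
    rw [← Finset.card_union_of_disjoint (Finset.disjoint_sdiff), Finset.union_sdiff_self_eq_union]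
  rw [hcard]
  let f : G → G × ℕ := fun z => if z ∈ X then (tl s a L z, (a z % L).toNat)
    else (tl s a L (s⁻¹ * z), (a (s⁻¹ * z) % L).toNat + 1)
  have hpos : ∀ z, 0 ≤ a z % L ∧ a z % L < L := fun z =>
    ⟨Int.emod_nonneg _ hL'.ne', Int.emod_lt_of_pos _ hL'⟩
  have hmaps : ∀ z ∈ X ∪ X.image fun x => s * x, f z ∈ (X.image (tl s a L)) ×ˢ Finset.range (L + 1) := by
    intro z hz
    rw [Finset.mem_product, Finset.mem_range]
    by_cases hzX : z ∈ X
    · simp only [f, if_pos hzX]
      have := hpos z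
      exact ⟨Finset.mem_image_of_mem _ hzX, by omega⟩
    · simp only [f, if_neg hzX]
      rcases Finset.mem_union.1 hz with h | h
      · exact absurd h hzX
      · obtain ⟨x, hx, rfl⟩ := Finset.mem_image.1 h
        have := hpos (s⁻¹ * (s * x))
        refine ⟨?_, by omega⟩
        rw [inv_mul_cancel_left]
        exact Finset.mem_image_of_mem _ hx
  have hkey : ∀ x ∈ X, ∀ w, w ∉ X → tl s a L x = tl s a L (s⁻¹ * w) →
      (a x % L).toNat = (a (s⁻¹ * w) % L).toNat + 1 → False := by
    intro x hx w hw h1 h2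
    have hx1 := hpos x
    have hw1 := hpos (s⁻¹ * w)
    have h3 : a x % L = a (s⁻¹ * w) % L + 1 := by omega
    apply hw
    have h4 : x = w := by
      unfold tl at h1
      rw [h3] at h1
      have h5 : s ^ (-(a (s⁻¹ * w) % L + 1)) * x
          = s ^ (-(a (s⁻¹ * w) % L)) * (s⁻¹ * x) := by
        rw [neg_add, zpow_add, zpow_neg_one, mul_assoc]
      rw [h5] at h1
      have h6 := mul_left_cancel h1
      exact mul_left_cancel h6
    rw [← h4]; exact hx
  have hinj : ∀ z ∈ X ∪ X.image fun x => s * x, ∀ w ∈ X ∪ X.image fun x => s * x,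
      f z = f w → z = w := by
    intro z hz w hw h
    by_cases hzX : z ∈ X <;> by_cases hwX : w ∈ X
    · simp only [f, if_pos hzX, if_pos hwX, Prod.mk.injEq] at h
      have h1 := hpos z
      have h2 := hpos w
      exact tl_eq z w h.1 (by omega)
    · simp only [f, if_pos hzX, if_neg hwX, Prod.mk.injEq] at h
      exact (hkey z hzX w hwX h.1 h.2).elim
    · simp only [f, if_neg hzX, if_pos hwX, Prod.mk.injEq] at h
      exact (hkey w hwX z hzX h.1.symm h.2.symm).elim
    · simp only [f, if_neg hzX, if_neg hwX, Prod.mk.injEq] at h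
      have h1 := hpos (s⁻¹ * z)
      have h2 := hpos (s⁻¹ * w)
      exact mul_left_cancel (tl_eq _ _ h.1 (by omega))
  have := Finset.card_le_card_of_injOn f hmaps (fun z hz w hw h => hinj z hz w hw h)
  rw [Finset.card_product, Finset.card_range] at this
  exact this

lemma exists_coloring {ι : Type u} [Fintype ι] (s : ι → G) (hs : ∀ i, ¬ IsOfFinOrder (s i))
    [DecidableEq G]
    (hexp : ∀ X : Finset G, 2 * X.card ≤ ∑ i, ((X.image fun x => s i * x) \ X).card) :
    ∃ c : G → ι × Fin (Fintype.card ι + 1),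
      ∀ p, ¬ PackLE {x | c x = p} (Fintype.card ι * (Fintype.card ι + 1)) := by
  classical
  set k := Fintype.card ι with hk
  choose a ha using fun i => exists_coord (s i) (hs i)
  let L : ℕ := k + 1
  have hL : 0 < L := Nat.succ_pos k
  have hL' : (0 : ℤ) < (L : ℤ) := by exact_mod_cast hL
  -- Hall
  let T : G → Finset (ι × G) := fun x => Finset.univ.image fun i => (i, tl (s i) (a i) L x)
  have hHall : ∀ X : Finset G, X.card ≤ (X.biUnion T).card := by
    intro X
    have h1 : (X.biUnion T).card = ∑ i, (X.image (tl (s i) (a i) L)).card := by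
      have : X.biUnion T = Finset.image (fun p : (Σ _ : ι, G) => (p.1, p.2))
          (Finset.univ.sigma (fun i : ι => X.image (tl (s i) (a i) L))) := by
        ext ⟨i, g⟩
        simp only [Finset.mem_biUnion, T, Finset.mem_image, Finset.mem_univ, true_and,
          Finset.mem_sigma, Prod.mk.injEq]
        constructor
        · rintro ⟨x, hx, j, hj, hg⟩
          subst hj
          exact ⟨⟨j, g⟩, ⟨x, hx, hg⟩, rfl, rfl⟩
        · rintro ⟨⟨j, g'⟩, ⟨x, hx, hg⟩, h1, h2⟩
          simp only at h1 h2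
          subst h1
          subst h2
          exact ⟨x, hx, j, rfl, hg⟩
      rw [this, Finset.card_image_of_injective, Finset.card_sigma]
      rintro ⟨i, g⟩ ⟨j, g'⟩ h
      simp only [Prod.mk.injEq] at h
      obtain ⟨h1, h2⟩ := h
      subst h1
      subst h2
      rfl
    rw [h1]
    have h2 : ∑ i : ι, (X.card + ((X.image fun x => s i * x) \ X).card)
        ≤ ∑ i : ι, (X.image (tl (s i) (a i) L)).card * (L + 1) :=
      Finset.sum_le_sum fun i _ => tl_count (s := s i) (a := a i) L hL X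
    rw [Finset.sum_add_distrib, ← Finset.sum_mul] at h2
    rw [Finset.sum_const, Finset.card_univ, ← hk, smul_eq_mul] at h2
    have h3 := hexp X
    have h4 : (k + 2) * X.card ≤ (∑ i : ι, (X.image (tl (s i) (a i) L)).card) * (k + 2) := by
      have : L + 1 = k + 2 := rfl
      rw [this] at h2
      calc (k + 2) * X.card = k * X.card + 2 * X.card := by ring
        _ ≤ k * X.card + ∑ i, ((X.image fun x => s i * x) \ X).card := by omega
        _ ≤ _ := h2
    rw [mul_comm] at h4
    exact Nat.le_of_mul_le_mul_right h4 (by omega)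
  obtain ⟨f, hfinj, hf⟩ := (Finset.all_card_le_biUnion_card_iff_exists_injective T).1 hHall
  have hf' : ∀ x, f x = ((f x).1, tl (s (f x).1) (a (f x).1) L x) := by
    intro x
    obtain ⟨i, -, hi⟩ := Finset.mem_image.1 (hf x)
    rw [← hi]
  let cl : G → ι × Fin (k + 1) := fun x =>
    ((f x).1, ⟨((a (f x).1 x / L) % ((k + 1 : ℕ) : ℤ)).toNat, by
      have h1 : (0 : ℤ) < ((k + 1 : ℕ) : ℤ) := by positivity
      have h2 := Int.emod_lt_of_pos (a (f x).1 x / L) h1
      have h3 := Int.emod_nonneg (a (f x).1 x / L) h1.ne'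
      omega⟩)
  refine ⟨cl, ?_⟩
  rintro ⟨i, p⟩ hpack
  have hzinj : Function.Injective (fun n : ℤ => s i ^ n) :=
    injective_zpow_iff_not_isOfFinOrder.2 (hs i)
  let E : Finset G := (Finset.range (k * L + 1)).image fun j : ℕ => s i ^ (j : ℤ)
  have hE : E.card = k * L + 1 := by
    rw [Finset.card_image_of_injective, Finset.card_range]
    intro j j' h
    have := hzinj h
    exact_mod_cast this
  -- separation
  have hsep : ∀ x y : G, cl x = (i, p) → cl y = (i, p) → ∀ j : ℤ, 0 < j → j ≤ k * L →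
      y = s i ^ j * x → False := by
    intro x y hx hy j hj0 hjL hyx
    have hx1 : (f x).1 = i := congrArg Prod.fst hx
    have hy1 : (f y).1 = i := congrArg Prod.fst hy
    have hx2 := congrArg (fun z : ι × Fin (k + 1) => ((z.2 : ℕ) : ℤ)) hx
    have hy2 := congrArg (fun z : ι × Fin (k + 1) => ((z.2 : ℕ) : ℤ)) hy
    simp only [cl] at hx2 hy2
    rw [hx1] at hx2
    rw [hy1] at hy2
    have hq : (0 : ℤ) < ((k + 1 : ℕ) : ℤ) := by positivity
    rw [Int.toNat_of_nonneg (Int.emod_nonneg _ hq.ne')] at hx2 hy2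
    have hmod : (a i x / L) % ((k + 1 : ℕ) : ℤ) = (a i y / L) % ((k + 1 : ℕ) : ℤ) :=
      hx2.trans hy2.symm
    have hay : a i y = a i x + j := by rw [hyx, ha]
    obtain ⟨w, hw⟩ : (((k + 1 : ℕ) : ℤ)) ∣ a i y / L - a i x / L := Int.ModEq.dvd hmod
    have hdx := Int.emod_add_mul_ediv (a i x) L
    have hdy := Int.emod_add_mul_ediv (a i y) L
    have hmx := Int.emod_nonneg (a i x) hL'.ne'
    have hmx' := Int.emod_lt_of_pos (a i x) hL'
    have hmy := Int.emod_nonneg (a i y) hL'.ne'
    have hmy' := Int.emod_lt_of_pos (a i y) hL'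
    have hdiff : a i y - a i x = L * (a i y / L - a i x / L) + (a i y % L - a i x % L) := by
      linarith
    rw [hw, hay] at hdiff
    have hdiff' : j = L * (((k + 1 : ℕ) : ℤ) * w) + ((a i x + j) % L - a i x % L) := by
      linarith
    rw [hay] at hmy hmy'
    rcases lt_trichotomy w 0 with hw0 | hw0 | hw0
    · have h1 : (L : ℤ) * (((k + 1 : ℕ) : ℤ) * w) ≤ L * (((k + 1 : ℕ) : ℤ) * (-1)) := by
        apply mul_le_mul_of_nonneg_left _ hL'.le
        exact mul_le_mul_of_nonneg_left (by omega) hq.le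
      have h2 : (L : ℤ) * 1 ≤ L * ((k + 1 : ℕ) : ℤ) := by
        apply mul_le_mul_of_nonneg_left _ hL'.le
        push_cast
        omega
      have h3 : (L : ℤ) * (((k + 1 : ℕ) : ℤ) * (-1)) = - (L * ((k + 1 : ℕ) : ℤ)) := by ring
      linarith
    · -- same tile
      subst hw0
      have h1 : a i y / L = a i x / L := by
        rw [mul_zero] at hw
        omega
      have h2 : tl (s i) (a i) L x = tl (s i) (a i) L y := by
        unfold tl
        rw [hyx, ← mul_assoc, ← zpow_add]
        congr 2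
        rw [← hyx]
        have h3 : a i y % L - a i x % L = j := by
          rw [h1] at hdy
          linarith
        omega
      have h3 : f x = f y := by
        rw [hf' x, hf' y, hx1, hy1, h2]
      have h4 := hfinj h3
      rw [← h4] at hyx
      have h5 : s i ^ j = 1 := by
        have : s i ^ j * x = 1 * x := by rw [one_mul]; exact hyx.symm
        exact mul_right_cancel this
      have h6 := hzinj (show s i ^ j = s i ^ (0 : ℤ) by rw [h5, zpow_zero])
      omega
    · have h1 : (L : ℤ) * (((k + 1 : ℕ) : ℤ) * 1) ≤ L * (((k + 1 : ℕ) : ℤ) * w) := by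
        apply mul_le_mul_of_nonneg_left _ hL'.le
        exact mul_le_mul_of_nonneg_left (by omega) hq.le
      have h2 : (L : ℤ) * (((k + 1 : ℕ) : ℤ) * 1) = k * L + L := by
        push_cast
        ring
      linarith
  have hdisj : ∀ x ∈ E, ∀ y ∈ E, x ≠ y →
      Disjoint ((fun b => x * b) '' {x | cl x = (i, p)}) ((fun b => y * b) '' {x | cl x = (i, p)}) := by
    intro x hx y hy hxy
    obtain ⟨j, hj, rfl⟩ := Finset.mem_image.1 hx
    obtain ⟨j', hj', rfl⟩ := Finset.mem_image.1 hy
    rw [Finset.mem_range] at hj hj'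
    have hjj : j ≠ j' := fun h => hxy (by rw [h])
    rw [Set.disjoint_left]
    rintro _ ⟨b, hb, rfl⟩ ⟨b', hb', hbb⟩
    have hbb' : s i ^ (j' : ℤ) * b' = s i ^ (j : ℤ) * b := hbb
    have hkL : ((k * L : ℕ) : ℤ) = (k : ℤ) * L := by push_cast; rfl
    rcases lt_or_gt_of_ne hjj with h | h
    · -- b = s^(j'-j) b'
      refine hsep b' b hb' hb ((j' : ℤ) - j) (by omega) (by rw [← hkL]; omega) ?_
      rw [zpow_sub, mul_assoc]
      have : (s i ^ (j : ℤ))⁻¹ * (s i ^ (j' : ℤ) * b') = b := by rw [hbb']; group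
      rw [← mul_assoc, ((Commute.refl (s i)).zpow_zpow _ _).inv_right.eq, mul_assoc]
      exact this.symm
    · refine hsep b b' hb hb' ((j : ℤ) - j') (by omega) (by rw [← hkL]; omega) ?_
      rw [zpow_sub, mul_assoc]
      have : (s i ^ (j' : ℤ))⁻¹ * (s i ^ (j : ℤ) * b) = b' := by rw [← hbb']; group
      rw [← mul_assoc, ((Commute.refl (s i)).zpow_zpow _ _).inv_right.eq, mul_assoc]
      exact this.symm
  have h1 := hpack E hdisj
  rw [hE] at h1
  have : k * L = k * (k + 1) := rfl
  omega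



/-! ## Colourings from finite subgroups -/

/-- representative of the right coset `H x` -/
noncomputable def rep (H : Subgroup G) (x : G) : G :=
  (Quotient.mk (QuotientGroup.rightRel H) x).out

lemma rep_mem (H : Subgroup G) (x : G) : x * (rep H x)⁻¹ ∈ H := by
  have h1 : (QuotientGroup.rightRel H) (rep H x) x := Quotient.exact (Quotient.out_eq _)
  rwa [QuotientGroup.rightRel_apply] at h1

lemma rep_mul (H : Subgroup G) {h : G} (hh : h ∈ H) (x : G) : rep H (h * x) = rep H x := by
  have : Quotient.mk (QuotientGroup.rightRel H) (h * x)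
      = Quotient.mk (QuotientGroup.rightRel H) x := by
    apply Quotient.sound
    show (QuotientGroup.rightRel H) (h * x) x
    rw [QuotientGroup.rightRel_apply]
    have : x * (h * x)⁻¹ = h⁻¹ := by group
    rw [this]
    exact H.inv_mem hh
  show (Quotient.mk _ (h * x)).out = (Quotient.mk _ x).out
  rw [this]

lemma rep_count (H : Subgroup G) [Finite H] {s : G} (hs : s ∈ H) (X : Finset G)
    [DecidableEq G] :
    X.card + ((X.image fun x => s * x) \ X).card ≤ (X.image (rep H)).card * Nat.card H := by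
  classical
  have : Fintype H := Fintype.ofFinite H
  have hcard : X.card + ((X.image fun x => s * x) \ X).card = (X ∪ X.image fun x => s * x).card := by
    rw [← Finset.card_union_of_disjoint (Finset.disjoint_sdiff), Finset.union_sdiff_self_eq_union]
  rw [hcard, Nat.card_eq_fintype_card]
  let f : G → G × H := fun z => (rep H z, ⟨z * (rep H z)⁻¹, rep_mem H z⟩)
  have hmaps : ∀ z ∈ X ∪ X.image fun x => s * x,
      f z ∈ (X.image (rep H)) ×ˢ (Finset.univ : Finset H) := by
    intro z hz
    rw [Finset.mem_product]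
    refine ⟨?_, Finset.mem_univ _⟩
    rcases Finset.mem_union.1 hz with h | h
    · exact Finset.mem_image_of_mem _ h
    · obtain ⟨x, hx, rfl⟩ := Finset.mem_image.1 h
      show rep H (s * x) ∈ _
      rw [rep_mul H hs]
      exact Finset.mem_image_of_mem _ hx
  have hinj : ∀ z w : G, f z = f w → z = w := by
    intro z w h
    have h1 : rep H z = rep H w := congrArg Prod.fst h
    have h2 : z * (rep H z)⁻¹ = w * (rep H w)⁻¹ := congrArg (fun p => ((p.2 : H) : G)) h
    rw [h1] at h2
    exact mul_right_cancel h2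
  have := Finset.card_le_card_of_injOn f hmaps (fun z _ w _ h => hinj z w h)
  rw [Finset.card_product, Finset.card_univ] at this
  exact this

lemma exists_coloring_fin {ι : Type u} [Fintype ι] (s : ι → G) (H : ι → Subgroup G)
    [∀ i, Finite (H i)] (M : ℕ) (hM : ∀ i, Nat.card (H i) = M) (hs : ∀ i, s i ∈ H i)
    [DecidableEq G] (hK : 0 < Fintype.card ι)
    (hMK : Fintype.card ι * (Fintype.card ι + 2) ≤ M)
    (hexp : ∀ X : Finset G, 2 * X.card ≤ ∑ i, ((X.image fun x => s i * x) \ X).card) :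
    ∃ q : ℕ, 0 < q ∧ ∃ c : G → ι × Fin q,
      ∀ p, ¬ PackLE {x | c x = p} (Fintype.card ι * q) := by
  classical
  set k := Fintype.card ι with hk
  let q : ℕ := (M - 1) / k
  have hq1 : k * q ≤ M - 1 := Nat.mul_div_le _ _
  have hq2 : M - 1 < k * q + k := by
    have := Nat.lt_mul_div_succ (M - 1) hK
    have h2 : k * ((M - 1) / k + 1) = k * q + k := by ring
    omega
  have hkk : k * 1 ≤ k * k := Nat.mul_le_mul_left k hK
  have hMk : k + 2 * k ≤ M := by
    have : k * (k + 2) = k * k + 2 * k := by ring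
    omega
  have hq0 : 0 < q := by
    rw [Nat.pos_iff_ne_zero]
    intro h0
    rw [h0, mul_zero, zero_add] at hq2
    omega
  have hq3 : M ≤ q * (k + 2) := by
    have h1 : q * (k + 2) = k * q + 2 * q := by ring
    -- `k q ≥ M - k`, hence `2 q ≥ k`
    have h2 : k * (k + 2) ≤ k * q + k := by omega
    have h3 : k * (k + 1) ≤ k * q := by
      have : k * (k + 2) = k * (k + 1) + k := by ring
      omega
    have h4 : k + 1 ≤ q := Nat.le_of_mul_le_mul_left h3 hK
    omega
  let T : G → Finset ((ι × Fin q) × G) := fun x =>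
    Finset.univ.image fun p : ι × Fin q => (p, rep (H p.1) x)
  have hHall : ∀ X : Finset G, X.card ≤ (X.biUnion T).card := by
    intro X
    have h1 : (X.biUnion T).card = ∑ p : ι × Fin q, (X.image (rep (H p.1))).card := by
      have : X.biUnion T = Finset.image (fun z : (Σ _ : ι × Fin q, G) => (z.1, z.2))
          (Finset.univ.sigma (fun p : ι × Fin q => X.image (rep (H p.1)))) := by
        ext ⟨p, g⟩
        simp only [Finset.mem_biUnion, T, Finset.mem_image, Finset.mem_univ, true_and,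
          Finset.mem_sigma, Prod.mk.injEq]
        constructor
        · rintro ⟨x, hx, j, hj, hg⟩
          subst hj
          exact ⟨⟨j, g⟩, ⟨x, hx, hg⟩, rfl, rfl⟩
        · rintro ⟨⟨j, g'⟩, ⟨x, hx, hg⟩, h1, h2⟩
          simp only at h1 h2
          subst h1
          subst h2
          exact ⟨x, hx, j, rfl, hg⟩
      rw [this, Finset.card_image_of_injective, Finset.card_sigma]
      rintro ⟨i, g⟩ ⟨j, g'⟩ h
      simp only [Prod.mk.injEq] at h
      obtain ⟨h1, h2⟩ := h
      subst h1
      subst h2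
      rfl
    have h1' : (X.biUnion T).card = q * ∑ i : ι, (X.image (rep (H i))).card := by
      rw [h1, Fintype.sum_prod_type]
      simp only
      rw [Finset.sum_congr rfl (fun t _ => Finset.sum_const _), ← Finset.smul_sum,
        Finset.card_univ, Fintype.card_fin, smul_eq_mul]
    rw [h1']
    have h2 : ∑ i : ι, (X.card + ((X.image fun x => s i * x) \ X).card)
        ≤ ∑ i : ι, (X.image (rep (H i))).card * M :=
      Finset.sum_le_sum fun i _ => (hM i) ▸ rep_count (H i) (hs i) X
    rw [Finset.sum_add_distrib, ← Finset.sum_mul] at h2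
    rw [Finset.sum_const, Finset.card_univ, ← hk, smul_eq_mul] at h2
    have h3 := hexp X
    have h4 : (k + 2) * X.card ≤ (∑ i : ι, (X.image (rep (H i))).card) * M := by
      calc (k + 2) * X.card = k * X.card + 2 * X.card := by ring
        _ ≤ k * X.card + ∑ i, ((X.image fun x => s i * x) \ X).card := by omega
        _ ≤ _ := h2
    have h5 : (k + 2) * X.card ≤ (k + 2) * (q * ∑ i : ι, (X.image (rep (H i))).card) := by
      calc (k + 2) * X.card ≤ (∑ i : ι, (X.image (rep (H i))).card) * M := h4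
        _ ≤ (∑ i : ι, (X.image (rep (H i))).card) * (q * (k + 2)) := Nat.mul_le_mul_left _ hq3
        _ = _ := by ring
    exact Nat.le_of_mul_le_mul_left h5 (by omega)
  obtain ⟨f, hfinj, hf⟩ := (Finset.all_card_le_biUnion_card_iff_exists_injective T).1 hHall
  have hf' : ∀ x, f x = ((f x).1, rep (H (f x).1.1) x) := by
    intro x
    obtain ⟨i, -, hi⟩ := Finset.mem_image.1 (hf x)
    rw [← hi]
  refine ⟨q, hq0, fun x => (f x).1, ?_⟩
  intro p hpack
  have : Fintype (H p.1) := Fintype.ofFinite _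
  let E : Finset G := (Finset.univ : Finset (H p.1)).image Subtype.val
  have hE : E.card = M := by
    rw [Finset.card_image_of_injective _ Subtype.val_injective, Finset.card_univ,
      ← Nat.card_eq_fintype_card, hM]
  have hdisj : ∀ x ∈ E, ∀ y ∈ E, x ≠ y →
      Disjoint ((fun b => x * b) '' {x | (f x).1 = p}) ((fun b => y * b) '' {x | (f x).1 = p}) := by
    intro x hx y hy hxy
    obtain ⟨⟨x, hxH⟩, -, rfl⟩ := Finset.mem_image.1 hx
    obtain ⟨⟨y, hyH⟩, -, rfl⟩ := Finset.mem_image.1 hy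
    rw [Set.disjoint_left]
    rintro _ ⟨b, hb, rfl⟩ ⟨b', hb', hbb⟩
    have hbb' : y * b' = x * b := hbb
    have hb1 : (f b).1 = p := hb
    have hb1' : (f b').1 = p := hb'
    have h1 : f b = f b' := by
      rw [hf' b, hf' b', hb1, hb1']
      congr 1
      rw [← rep_mul (H p.1) hxH b, ← hbb', rep_mul (H p.1) hyH b']
    have h2 := hfinj h1
    rw [h2] at hbb'
    exact hxy (mul_right_cancel hbb').symm
  have h1 := hpack E hdisj
  rw [hE] at h1
  omega

/-! ## Mean functionals -/

/-- bounded functions -/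
def Bdd (f : G → ℝ) : Prop := ∃ C : ℝ, ∀ x, |f x| ≤ C

/-- means as positive normalised functionals on bounded functions -/
structure IsMeanFun (Λ : (G → ℝ) → ℝ) : Prop where
  nonneg : ∀ f, Bdd f → (∀ x, 0 ≤ f x) → 0 ≤ Λ f
  one : Λ (fun _ => 1) = 1
  add : ∀ f g, Bdd f → Bdd g → Λ (fun x => f x + g x) = Λ f + Λ g
  smul : ∀ (c : ℝ) f, Bdd f → Λ (fun x => c * f x) = c * Λ f

/-- invariance under left translation by `h` -/
def InvUnder (Λ : (G → ℝ) → ℝ) (h : G) : Prop := ∀ f, Bdd f → Λ (fun x => f (h * x)) = Λ f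

lemma Bdd.add {f g : G → ℝ} (hf : Bdd f) (hg : Bdd g) : Bdd (fun x => f x + g x) := by
  obtain ⟨C, hC⟩ := hf
  obtain ⟨D, hD⟩ := hg
  exact ⟨C + D, fun x => (abs_add_le _ _).trans (add_le_add (hC x) (hD x))⟩

lemma Bdd.smul {f : G → ℝ} (c : ℝ) (hf : Bdd f) : Bdd (fun x => c * f x) := by
  obtain ⟨C, hC⟩ := hf
  refine ⟨|c| * C, fun x => ?_⟩
  rw [abs_mul]
  exact mul_le_mul_of_nonneg_left (hC x) (abs_nonneg c)

lemma Bdd.trans {f : G → ℝ} (h : G) (hf : Bdd f) : Bdd (fun x => f (h * x)) := by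
  obtain ⟨C, hC⟩ := hf
  exact ⟨C, fun x => hC _⟩

lemma IsMeanFun.le {Λ : (G → ℝ) → ℝ} (hΛ : IsMeanFun Λ) {f : G → ℝ} {C : ℝ} (hf : ∀ x, |f x| ≤ C) :
    |Λ f| ≤ C := by
  have hb : Bdd f := ⟨C, hf⟩
  have h1b : Bdd (fun _ : G => (1 : ℝ)) := ⟨1, fun _ => by simp⟩
  have hc : Λ (fun _ => C * 1) = C * 1 := by rw [hΛ.smul C _ h1b, hΛ.one]
  have hcb : Bdd (fun _ : G => C * 1) := h1b.smul C
  have h1 := hΛ.nonneg (fun x => C * 1 + (-1) * f x) (hcb.add (hb.smul (-1))) (fun x => by
    have := (abs_le.1 (hf x)).2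
    linarith)
  have h2 := hΛ.nonneg (fun x => C * 1 + f x) (hcb.add hb) (fun x => by
    have := (abs_le.1 (hf x)).1
    linarith)
  rw [hΛ.add _ _ hcb (hb.smul (-1)), hc, hΛ.smul (-1) _ hb] at h1
  rw [hΛ.add _ _ hcb hb, hc] at h2
  rw [abs_le]
  constructor <;> linarith

lemma comp_mean {Λ₁ Λ₂ : (G → ℝ) → ℝ} (h₁ : IsMeanFun Λ₁) (h₂ : IsMeanFun Λ₂) :
    IsMeanFun (fun f => Λ₂ (fun g => Λ₁ (fun x => f (g * x)))) ∧
    (∀ h, InvUnder Λ₂ h → InvUnder (fun f => Λ₂ (fun g => Λ₁ (fun x => f (g * x)))) h) ∧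
    (∀ h, (∀ g : G, InvUnder Λ₁ (g⁻¹ * h * g)) →
      InvUnder (fun f => Λ₂ (fun g => Λ₁ (fun x => f (g * x)))) h) := by
  have hin : ∀ f : G → ℝ, Bdd f → Bdd (fun g => Λ₁ (fun x => f (g * x))) := by
    intro f hf
    obtain ⟨C, hC⟩ := hf
    exact ⟨C, fun g => h₁.le fun x => hC _⟩
  refine ⟨⟨?_, ?_, ?_, ?_⟩, ?_, ?_⟩
  · intro f hf h0
    exact h₂.nonneg _ (hin f hf) fun g => h₁.nonneg _ (hf.trans g) fun x => h0 _
  · show Λ₂ (fun g => Λ₁ (fun x => 1)) = 1
    rw [h₁.one]
    exact h₂.one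
  · intro f g hf hg
    show Λ₂ (fun a => Λ₁ (fun x => f (a * x) + g (a * x))) = _
    rw [← h₂.add _ _ (hin f hf) (hin g hg)]
    congr 1
    funext a
    exact h₁.add _ _ (hf.trans a) (hg.trans a)
  · intro c f hf
    show Λ₂ (fun a => Λ₁ (fun x => c * f (a * x))) = _
    rw [← h₂.smul c _ (hin f hf)]
    congr 1
    funext a
    exact h₁.smul c _ (hf.trans a)
  · intro h hh f hf
    show Λ₂ (fun g => Λ₁ (fun x => f (h * (g * x)))) = Λ₂ (fun g => Λ₁ (fun x => f (g * x)))
    have := hh _ (hin f hf)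
    simpa only [mul_assoc] using this
  · intro h hh f hf
    show Λ₂ (fun g => Λ₁ (fun x => f (h * (g * x)))) = _
    congr 1
    funext g
    have h1 := hh g _ (hf.trans g)
    rw [← h1]
    congr 1
    funext x
    congr 1
    group

lemma exists_lim {J : Type u} (𝒰 : Ultrafilter J) (Λ : J → (G → ℝ) → ℝ)
    (hΛ : ∀ j, IsMeanFun (Λ j)) :
    ∃ Λ' : (G → ℝ) → ℝ, IsMeanFun Λ' ∧ ∀ h : G,
      (∀ f, Bdd f → Filter.Tendsto (fun j => Λ j (fun x => f (h * x)) - Λ j f) 𝒰 (nhds 0)) →
      InvUnder Λ' h := by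
  classical
  have hlim : ∀ f : G → ℝ, ∃ l : ℝ, Bdd f → Filter.Tendsto (fun j => Λ j f) 𝒰 (nhds l) := by
    intro f
    by_cases hf : Bdd f
    · obtain ⟨C, hC⟩ := hf
      obtain ⟨l, -, hl'⟩ := (isCompact_Icc (a := -C) (b := C)).ultrafilter_le_nhds
        (𝒰.map (fun j => Λ j f)) (by
          rw [Filter.le_principal_iff]
          exact Filter.mem_map.2 (Filter.Eventually.of_forall fun j => abs_le.1 ((hΛ j).le hC)))
      exact ⟨l, fun _ => hl'⟩
    · exact ⟨0, fun h => absurd h hf⟩
  choose Λ' hΛ' using hlim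
  refine ⟨Λ', ⟨?_, ?_, ?_, ?_⟩, ?_⟩
  · intro f hf h0
    exact ge_of_tendsto' (hΛ' f hf) fun j => (hΛ j).nonneg f hf h0
  · have h1b : Bdd (fun _ : G => (1 : ℝ)) := ⟨1, fun _ => by simp⟩
    refine tendsto_nhds_unique (hΛ' _ h1b) ?_
    simp only [fun j => (hΛ j).one]
    exact tendsto_const_nhds
  · intro f g hf hg
    refine tendsto_nhds_unique (hΛ' _ (hf.add hg)) ?_
    simp only [fun j => (hΛ j).add f g hf hg]
    exact (hΛ' f hf).add (hΛ' g hg)
  · intro c f hf
    refine tendsto_nhds_unique (hΛ' _ (hf.smul c)) ?_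
    simp only [fun j => (hΛ j).smul c f hf]
    exact (hΛ' f hf).const_mul c
  · intro h hh f hf
    have h1 := tendsto_nhds_unique ((hΛ' _ (hf.trans h)).sub (hΛ' f hf)) (hh f hf)
    linarith

lemma avg_mean (X : Finset G) (hX : X.Nonempty) :
    IsMeanFun (fun f : G → ℝ => (∑ x ∈ X, f x) / X.card) := by
  have hpos : (0 : ℝ) < X.card := by exact_mod_cast hX.card_pos
  refine ⟨?_, ?_, ?_, ?_⟩
  · intro f _ h0
    exact div_nonneg (Finset.sum_nonneg fun x _ => h0 x) hpos.le
  · simp [hpos.ne']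
  · intro f g _ _
    simp only [Finset.sum_add_distrib, add_div]
  · intro c f _
    simp only [← Finset.mul_sum, mul_div_assoc]

lemma avg_diff [DecidableEq G] (X : Finset G) (hX : X.Nonempty) (h : G) {f : G → ℝ} {C : ℝ}
    (hf : ∀ x, |f x| ≤ C) :
    |(∑ x ∈ X, f (h * x)) / X.card - (∑ x ∈ X, f x) / X.card|
      ≤ 2 * C * ((X.image fun x => h * x) \ X).card / X.card := by
  have hpos : (0 : ℝ) < X.card := by exact_mod_cast hX.card_pos
  rw [← sub_div, abs_div, abs_of_pos hpos]
  refine div_le_div_of_nonneg_right ?_ hpos.le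
  have h1 : ∑ x ∈ X, f (h * x) = ∑ y ∈ X.image (fun x => h * x), f y := by
    rw [Finset.sum_image]
    intro x _ y _ hxy
    exact mul_left_cancel hxy
  rw [h1]
  set Y := X.image fun x => h * x with hY
  have hc : Y.card = X.card := Finset.card_image_of_injective _ (mul_right_injective h)
  have hsymm : (X \ Y).card = (Y \ X).card := by
    rw [Finset.card_sdiff, Finset.card_sdiff, hc, Finset.inter_comm]
  have h2 : ∑ y ∈ Y, f y = ∑ y ∈ Y \ X, f y + ∑ y ∈ Y ∩ X, f y := by
    rw [← Finset.sum_sdiff (Finset.inter_subset_left (s₁ := Y) (s₂ := X))]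
    congr 2
    ext z
    simp only [Finset.mem_sdiff, Finset.mem_inter]
    tauto
  have h3 : ∑ y ∈ X, f y = ∑ y ∈ X \ Y, f y + ∑ y ∈ Y ∩ X, f y := by
    rw [← Finset.sum_sdiff (Finset.inter_subset_right (s₁ := Y) (s₂ := X))]
    congr 2
    ext z
    simp only [Finset.mem_sdiff, Finset.mem_inter]
    tauto
  rw [h2, h3]
  have h4 : ∀ Z : Finset G, |∑ y ∈ Z, f y| ≤ C * Z.card := by
    intro Z
    refine (Finset.abs_sum_le_sum_abs _ _).trans ?_
    refine (Finset.sum_le_sum fun y _ => hf y).trans ?_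
    rw [Finset.sum_const, nsmul_eq_mul, mul_comm]
  have h5 := abs_le.1 (h4 (Y \ X))
  have h6 := abs_le.1 (h4 (X \ Y))
  rw [hsymm] at h6
  rw [abs_le]
  constructor <;> linarith

/-- restriction of an invariant mean to a subgroup -/
lemma amenable_of_mean (N : Subgroup G) (m : Set G → ℝ) (m0 : ∀ A, 0 ≤ m A)
    (m1 : m Set.univ = 1) (madd : ∀ A B, Disjoint A B → m (A ∪ B) = m A + m B)
    (minv : ∀ n ∈ N, ∀ A : Set G, m ((fun x => n * x) '' A) = m A) : IsAmenable N := by
  classical
  let r : G → G := fun x => (Quotient.mk (QuotientGroup.rightRel N) x).out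
  have hr : ∀ x, x * (r x)⁻¹ ∈ N := by
    intro x
    have h1 : (QuotientGroup.rightRel N) (r x) x := Quotient.exact (Quotient.out_eq _)
    rwa [QuotientGroup.rightRel_apply] at h1
  have hrn : ∀ (n : N) (x : G), r ((n : G) * x) = r x := by
    intro n x
    have : Quotient.mk (QuotientGroup.rightRel N) ((n : G) * x)
        = Quotient.mk (QuotientGroup.rightRel N) x := by
      apply Quotient.sound
      show (QuotientGroup.rightRel N) ((n : G) * x) x
      rw [QuotientGroup.rightRel_apply]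
      have : x * ((n : G) * x)⁻¹ = (n : G)⁻¹ := by group
      rw [this]
      exact N.inv_mem n.2
    show (Quotient.mk _ ((n : G) * x)).out = (Quotient.mk _ x).out
    rw [this]
  let ρ : G → N := fun x => ⟨x * (r x)⁻¹, hr x⟩
  have hρ : ∀ (n : N) (x : G), ρ ((n : G) * x) = n * ρ x := by
    intro n x
    apply Subtype.ext
    show (n : G) * x * (r ((n : G) * x))⁻¹ = (n : G) * (x * (r x)⁻¹)
    rw [hrn, mul_assoc]
  refine ⟨fun B => m (ρ ⁻¹' B), fun B => m0 _, m1, ?_, ?_⟩
  · intro A B hAB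
    show m (ρ ⁻¹' (A ∪ B)) = _
    rw [Set.preimage_union]
    exact madd _ _ (hAB.preimage ρ)
  · intro n B
    show m (ρ ⁻¹' ((fun x => n * x) '' B)) = m (ρ ⁻¹' B)
    rw [← minv n n.2 (ρ ⁻¹' B)]
    congr 1
    ext x
    constructor
    · rintro ⟨b, hb, hbx⟩
      refine ⟨(n : G)⁻¹ * x, ?_, by simp⟩
      show ρ ((n : G)⁻¹ * x) ∈ B
      have h1 : ρ ((n : G)⁻¹ * x) = n⁻¹ * ρ x := by
        have := hρ n⁻¹ x
        simpa using this
      rw [h1, ← hbx]
      simpa using hb
    · rintro ⟨y, hy, rfl⟩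
      exact ⟨ρ y, hy, (hρ n y).symm⟩


/-! ## The theorem -/

/-- `s` has infinite order or lies in finite subgroups of arbitrarily large order. -/
def Good (s : G) : Prop :=
  ¬ IsOfFinOrder s ∨ ∀ m : ℕ, ∃ H : Subgroup G, Finite H ∧ s ∈ H ∧ m ≤ Nat.card H

lemma folner_conj [DecidableEq G] (hG : PropertyB G) {s₀ : G} (hs₀ : Good s₀)
    (S : Finset {g : G // IsConj s₀ g}) (k : ℕ) :
    ∃ X : Finset G, X.Nonempty ∧
      (k + 1) * ∑ s ∈ S, ((X.image fun x => (s : G) * x) \ X).card ≤ X.card := by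
  classical
  by_contra hcon
  push Not at hcon
  let ι := S × ULift.{u} (Fin (2 * (k + 1)))
  let s : ι → G := fun i => ((i.1 : {g : G // IsConj s₀ g}) : G)
  have hsc : ∀ i, IsConj s₀ (s i) := fun i => (i.1 : {g : G // IsConj s₀ g}).2
  have hexp : ∀ X : Finset G, 2 * X.card ≤ ∑ i, ((X.image fun x => s i * x) \ X).card := by
    intro X
    rcases X.eq_empty_or_nonempty with hX | hX
    · subst hX; simp
    · have h1 := hcon X hX
      have h2 : ∑ i : ι, ((X.image fun x => s i * x) \ X).card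
          = 2 * (k + 1) * ∑ t ∈ S, ((X.image fun x => (t : G) * x) \ X).card := by
        rw [Fintype.sum_prod_type]
        simp only [s]
        rw [Finset.sum_congr rfl (fun t _ => Finset.sum_const _)]
        rw [← Finset.smul_sum, Finset.card_univ, smul_eq_mul, Fintype.card_ulift,
          Fintype.card_fin]
        congr 1
        exact Finset.sum_coe_sort S (fun t => ((X.image fun x => (t : G) * x) \ X).card)
      rw [h2, mul_assoc]
      exact Nat.mul_le_mul_left 2 h1.le
  obtain ⟨K, hK⟩ : ∃ K, K = Fintype.card ι := ⟨_, rfl⟩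
  have hKpos : 0 < K := by
    by_contra hcon
    have h0 : K = 0 := by omega
    have : IsEmpty ι := Fintype.card_eq_zero_iff.1 (hK ▸ h0)
    have h1 := hexp {1}
    simp at h1
  -- reduction to a colouring
  have key : ∀ q : ℕ, 0 < q → ∀ c : G → ι × Fin q, ¬ ∀ p, ¬ PackLE {x | c x = p} (K * q) := by
    intro q hq c hc
    have hn : 1 ≤ K * q := Nat.mul_pos hKpos hq
    let e : ι × Fin q ≃ Fin (K * q) :=
      Fintype.equivFinOfCardEq (by rw [Fintype.card_prod, Fintype.card_fin, ← hK])
    obtain ⟨i, hi⟩ := hG (K * q) hn (fun x => e (c x))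
    apply hc (e.symm i)
    have : {x | c x = e.symm i} = {x | e (c x) = i} := by
      ext x
      show c x = e.symm i ↔ e (c x) = i
      exact Equiv.eq_symm_apply e
    rw [this]
    exact hi
  rcases hs₀ with hinf | hfin
  · have hs : ∀ i, ¬ IsOfFinOrder (s i) := by
      intro i hfin
      apply hinf
      obtain ⟨c, hc⟩ := isConj_iff.1 (hsc i)
      have h1 : s₀ = c⁻¹ * s i * c := by rw [← hc]; group
      obtain ⟨n, hn, hgn⟩ := isOfFinOrder_iff_pow_eq_one.1 hfin
      refine isOfFinOrder_iff_pow_eq_one.2 ⟨n, hn, ?_⟩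
      have h2 : (c⁻¹ * s i * c) ^ n = c⁻¹ * s i ^ n * c := by
        have := conj_pow (a := c⁻¹) (b := s i) (i := n)
        rwa [inv_inv] at this
      rw [h1, h2, hgn]
      group
    obtain ⟨c, hc⟩ : ∃ c : G → ι × Fin (K + 1), ∀ p, ¬ PackLE {x | c x = p} (K * (K + 1)) := by
      rw [hK]
      exact exists_coloring s hs hexp
    exact key _ (Nat.succ_pos _) c hc
  · obtain ⟨H, hHfin, hsH, hHcard⟩ := hfin (K * (K + 2))
    choose c hc using fun i => isConj_iff.1 (hsc i)
    let Hc : ι → Subgroup G := fun i => H.map (MulAut.conj (c i)).toMonoidHom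
    have hcinj : ∀ i, Function.Injective (MulAut.conj (c i)).toMonoidHom :=
      fun i => (MulAut.conj (c i)).injective
    have heq : ∀ i, H ≃ Hc i := fun i => (H.equivMapOfInjective _ (hcinj i)).toEquiv
    have hfinite : ∀ i, Finite (Hc i) := fun i => Finite.of_equiv H (heq i)
    have hM : ∀ i, Nat.card (Hc i) = Nat.card H := fun i => (Nat.card_congr (heq i)).symm
    have hmem : ∀ i, s i ∈ Hc i := by
      intro i
      refine ⟨s₀, hsH, ?_⟩
      show c i * s₀ * (c i)⁻¹ = s i
      exact hc i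
    obtain ⟨q, hq, col, hcol⟩ := exists_coloring_fin s Hc (Nat.card H) hM hmem (hK ▸ hKpos)
      (hK ▸ hHcard) hexp
    rw [← hK] at hcol
    exact key q hq col hcol

lemma mean_conj (hG : PropertyB G) {s₀ : G} (hs₀ : Good s₀) :
    ∃ Λ : (G → ℝ) → ℝ, IsMeanFun Λ ∧ ∀ h, IsConj s₀ h → InvUnder Λ h := by
  classical
  choose X hXne hX using fun S k => folner_conj hG hs₀ S k
  let J := Finset {g : G // IsConj s₀ g} × ℕ
  let 𝒰 : Ultrafilter J := Ultrafilter.of Filter.atTop
  have h𝒰 : (𝒰 : Filter J) ≤ Filter.atTop := Ultrafilter.of_le _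
  obtain ⟨Λ, hΛ, hinv⟩ := exists_lim 𝒰 (fun j f => (∑ x ∈ X j.1 j.2, f x) / (X j.1 j.2).card)
    (fun j => avg_mean _ (hXne _ _))
  refine ⟨Λ, hΛ, fun h hh => hinv h fun f hf => ?_⟩
  obtain ⟨C, hC⟩ := hf
  have hev : ∀ᶠ j in (𝒰 : Filter J), (⟨h, hh⟩ : {g : G // IsConj s₀ g}) ∈ j.1 := by
    apply h𝒰
    filter_upwards [Filter.eventually_ge_atTop (({⟨h, hh⟩}, 0) : J)] with j hj
    exact (Prod.le_def.1 hj).1 (Finset.mem_singleton_self _)
  have hbound : Filter.Tendsto (fun j : J => 2 * C * (1 / ((j.2 : ℝ) + 1))) 𝒰 (nhds 0) := by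
    have h1 : Filter.Tendsto (fun j : J => j.2) 𝒰 Filter.atTop := by
      refine Filter.Tendsto.mono_left ?_ h𝒰
      rw [← Filter.prod_atTop_atTop_eq]
      exact Filter.tendsto_snd
    have h2 := (tendsto_one_div_add_atTop_nhds_zero_nat (𝕜 := ℝ)).comp h1
    have h3 := h2.const_mul (2 * C)
    rw [mul_zero] at h3
    exact h3
  refine squeeze_zero_norm' ?_ hbound
  filter_upwards [hev] with j hj
  rw [Real.norm_eq_abs]
  refine (avg_diff (X j.1 j.2) (hXne _ _) h hC).trans ?_
  have hC0 : 0 ≤ C := (abs_nonneg _).trans (hC 1)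
  have hpos : (0 : ℝ) < (X j.1 j.2).card := by exact_mod_cast (hXne j.1 j.2).card_pos
  have hdef : ((j.2 : ℝ) + 1) * (((X j.1 j.2).image fun x => h * x) \ X j.1 j.2).card
      ≤ (X j.1 j.2).card := by
    have h1 := hX j.1 j.2
    have h2 : (((X j.1 j.2).image fun x => h * x) \ X j.1 j.2).card
        ≤ ∑ t ∈ j.1, (((X j.1 j.2).image fun x => (t : G) * x) \ X j.1 j.2).card :=
      Finset.single_le_sum
        (f := fun t : {g : G // IsConj s₀ g} =>
          (((X j.1 j.2).image fun x => (t : G) * x) \ X j.1 j.2).card)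
        (fun t _ => Nat.zero_le _) hj
    have h3 := (Nat.mul_le_mul_left (j.2 + 1) h2).trans h1
    exact_mod_cast h3
  have hj1 : (0 : ℝ) < (j.2 : ℝ) + 1 := by positivity
  rw [mul_div_assoc]
  refine mul_le_mul_of_nonneg_left ?_ (by positivity)
  rw [div_le_div_iff₀ hpos hj1, one_mul, mul_comm]
  exact hdef

lemma mean_finset (hG : PropertyB G) (S : Finset {s : G // Good s}) :
    ∃ Λ : (G → ℝ) → ℝ, IsMeanFun Λ ∧ ∀ s ∈ S, ∀ h, IsConj (s : G) h → InvUnder Λ h := by
  classical
  induction S using Finset.induction_on with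
  | empty =>
    refine ⟨fun f => f 1, ⟨fun f _ h => h 1, rfl, fun f g _ _ => rfl, fun c f _ => rfl⟩, ?_⟩
    intro s hs
    exact absurd hs (Finset.notMem_empty s)
  | insert a S _ ih =>
    obtain ⟨Λ₂, h₂, hi₂⟩ := ih
    obtain ⟨Λ₁, h₁, hi₁⟩ := mean_conj hG a.2
    obtain ⟨hm, hA, hB⟩ := comp_mean h₁ h₂
    refine ⟨_, hm, fun s hs h hh => ?_⟩
    rcases Finset.mem_insert.1 hs with rfl | hs
    · refine hB h fun g => hi₁ _ ?_
      refine hh.trans (isConj_iff.2 ⟨g⁻¹, ?_⟩)
      group
    · exact hA h (hi₂ s hs h hh)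

/-- Every group `G` with property (b) has an amenable normal subgroup that contains
all elements of infinite order and all elements that lie in finite subgroups of arbitrarily large
order. In particular a torsion-free group with property (b) is amenable. -/
theorem main (G : Type u) [Group G] (hG : PropertyB G) :
    ∃ N : Subgroup G, N.Normal ∧ IsAmenable N ∧
      (∀ g : G, ¬ IsOfFinOrder g → g ∈ N) ∧
      ∀ g : G, (∀ m : ℕ, ∃ H : Subgroup G, Finite H ∧ g ∈ H ∧ m ≤ Nat.card H) → g ∈ N := by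
  classical
  choose Λ hΛ hinv using fun S => mean_finset hG S
  let J := Finset {s : G // Good s}
  let 𝒰 : Ultrafilter J := Ultrafilter.of Filter.atTop
  have h𝒰 : (𝒰 : Filter J) ≤ Filter.atTop := Ultrafilter.of_le _
  obtain ⟨Λ', hΛ', hinv'⟩ := exists_lim 𝒰 Λ hΛ
  have hI : ∀ s : G, Good s → ∀ h, IsConj s h → InvUnder Λ' h := by
    intro s hs h hh
    refine hinv' h fun f hf => ?_
    refine Filter.Tendsto.congr' ?_ tendsto_const_nhds
    have hev : ∀ᶠ j in (𝒰 : Filter J), (⟨s, hs⟩ : {s : G // Good s}) ∈ j := by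
      apply h𝒰
      filter_upwards [Filter.eventually_ge_atTop ({⟨s, hs⟩} : J)] with j hj
      exact hj (Finset.mem_singleton_self _)
    filter_upwards [hev] with j hj
    rw [hinv j _ hj h hh f hf, sub_self]
  -- the finitely additive measure
  let ind : Set G → G → ℝ := fun A x => if x ∈ A then 1 else 0
  have hind : ∀ A, Bdd (ind A) := by
    intro A
    refine ⟨1, fun x => ?_⟩
    show |if x ∈ A then (1 : ℝ) else 0| ≤ 1
    split_ifs <;> simp
  let m : Set G → ℝ := fun A => Λ' (ind A)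
  have minv1 : ∀ h, InvUnder Λ' h → ∀ A : Set G, m ((fun x => h * x) '' A) = m A := by
    intro h hh A
    have h1 := hh (ind ((fun x => h * x) '' A)) (hind _)
    show Λ' (ind ((fun x => h * x) '' A)) = Λ' (ind A)
    rw [← h1]
    congr 1
    funext x
    show (if h * x ∈ (fun x => h * x) '' A then (1 : ℝ) else 0) = if x ∈ A then 1 else 0
    have : h * x ∈ (fun x => h * x) '' A ↔ x ∈ A := by
      constructor
      · rintro ⟨y, hy, hyx⟩
        have : y = x := mul_left_cancel hyx
        rwa [← this]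
      · intro hx
        exact ⟨x, hx, rfl⟩
    simp only [this]
  refine ⟨Subgroup.normalClosure {s | Good s}, inferInstance, ?_,
    fun g hg => Subgroup.subset_normalClosure (Or.inl hg),
    fun g hg => Subgroup.subset_normalClosure (Or.inr hg)⟩
  refine amenable_of_mean _ m ?_ ?_ ?_ ?_
  · intro A
    refine hΛ'.nonneg _ (hind A) fun x => ?_
    show (0 : ℝ) ≤ if x ∈ A then 1 else 0
    split_ifs <;> norm_num
  · show Λ' (ind Set.univ) = 1
    have : ind Set.univ = fun _ => 1 := by
      funext x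
      simp [ind]
    rw [this, hΛ'.one]
  · intro A B hAB
    show Λ' (ind (A ∪ B)) = Λ' (ind A) + Λ' (ind B)
    rw [← hΛ'.add _ _ (hind A) (hind B)]
    congr 1
    funext x
    by_cases hA : x ∈ A
    · have hB : x ∉ B := Set.disjoint_left.1 hAB hA
      simp [ind, hA, hB]
    · by_cases hB : x ∈ B <;> simp [ind, hA, hB]
  · intro n hn
    refine Subgroup.closure_induction (p := fun n _ => ∀ A : Set G,
      m ((fun x => n * x) '' A) = m A) ?_ ?_ ?_ ?_ hn
    · intro x hx A
      obtain ⟨a, ha, hax⟩ := Group.mem_conjugatesOfSet_iff.1 hx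
      exact minv1 x (hI a ha x hax) A
    · intro A
      simp
    · intro x y _ _ hx hy A
      have : (fun z => x * y * z) '' A = (fun z => x * z) '' ((fun z => y * z) '' A) := by
        rw [Set.image_image]
        simp [mul_assoc]
      rw [this, hx, hy]
    · intro x _ hx A
      have h1 := hx ((fun z => x⁻¹ * z) '' A)
      have h2 : (fun z => x * z) '' ((fun z => x⁻¹ * z) '' A) = A := by
        rw [Set.image_image]
        simp
      rw [h2] at h1
      exact h1.symm

end

end Pool.Agent.PackIndex
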