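import Mathlib

/-!
# Packing indices of partition cells: definitions
-/

namespace Pool.Agent.PackIndex

universe u

/-- `G` is amenable: there is a left-invariant finitely additive probability measure on all
subsets of `G`. -/
def IsAmenable (G : Type u) [Group G] : Prop :=
  ∃ m : Set G → ℝ, (∀ A, 0 ≤ m A) ∧ m Set.univ = 1 ∧
    (∀ A B, Disjoint A B → m (A ∪ B) = m A + m B) ∧
    ∀ (g : G) (A : Set G), m ((fun x => g * x) '' A) = m A

/-- `pack(A) ≤ n`: every finite set `E` such that the left translates `x A`, `x ∈ E`, are pairwise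
disjoint has at most `n` elements. -/
def PackLE {G : Type u} [Group G] (A : Set G) (n : ℕ) : Prop :=
  ∀ E : Finset G, (∀ x ∈ E, ∀ y ∈ E, x ≠ y →
    Disjoint ((fun a => x * a) '' A) ((fun a => y * a) '' A)) → E.card ≤ n

/-- Property (b): every partition into `n` cells has a cell `A` with `pack(A) ≤ n`. -/
def PropertyB (G : Type u) [Group G] : Prop :=
  ∀ n : ℕ, 1 ≤ n → ∀ c : G → Fin n, ∃ i : Fin n, PackLE {x | c x = i} n

end Pool.Agent.PackIndex
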